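import Pool.Agent.K3h78.PP.Stm

/-!
# The bound for the binomial sum
-/

set_option autoImplicit false

namespace Pool.Agent.K3h72.PP

open Finset

/-- `C(2 m, m) ^ 2 (2 m + 1) ≤ 16 ^ m` -/
theorem central_le (m : ℕ) : m.centralBinom ^ 2 * (2 * m + 1) ≤ 16 ^ m := by
  induction m with
  | zero => simp
  | succ m ih =>
    have h := Nat.succ_mul_centralBinom_succ m
    have h2 : (m + 1) ^ 2 * ((m + 1).centralBinom ^ 2 * (2 * (m + 1) + 1)) ≤
        (m + 1) ^ 2 * 16 ^ (m + 1) := by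
      calc (m + 1) ^ 2 * ((m + 1).centralBinom ^ 2 * (2 * (m + 1) + 1))
          = ((m + 1) * (m + 1).centralBinom) ^ 2 * (2 * m + 3) := by ring
        _ = (2 * (2 * m + 1) * m.centralBinom) ^ 2 * (2 * m + 3) := by rw [h]
        _ = (4 * (2 * m + 1) * (2 * m + 3)) * (m.centralBinom ^ 2 * (2 * m + 1)) := by ring
        _ ≤ (4 * (2 * m + 1) * (2 * m + 3)) * 16 ^ m := Nat.mul_le_mul_left _ ih
        _ ≤ (16 * (m + 1) ^ 2) * 16 ^ m := by
          apply Nat.mul_le_mul_right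
          nlinarith
        _ = (m + 1) ^ 2 * 16 ^ (m + 1) := by ring
    exact Nat.le_of_mul_le_mul_left h2 (by positivity)

/-- `C(k, k / 2) ^ 2 (k + 1) ≤ 4 ^ k` -/
theorem middle_le (k : ℕ) : k.choose (k / 2) ^ 2 * (k + 1) ≤ 4 ^ k := by
  rcases Nat.even_or_odd' k with ⟨m, rfl | rfl⟩
  · have h := central_le m
    rw [Nat.mul_div_cancel_left m two_pos, ← Nat.centralBinom_eq_two_mul_choose]
    calc m.centralBinom ^ 2 * (2 * m + 1) ≤ 16 ^ m := h
      _ = 4 ^ (2 * m) := by rw [pow_mul]; norm_num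
  · have h := central_le (m + 1)
    have h1 : (2 * m + 1) / 2 = m := by omega
    have h2 : (m + 1).centralBinom = 2 * (2 * m + 1).choose m := by
      rw [Nat.centralBinom_eq_two_mul_choose, show 2 * (m + 1) = (2 * m + 1) + 1 by ring,
        Nat.choose_succ_succ, Nat.choose_symm_half]
      ring
    rw [h1]
    rw [h2] at h
    have h3 : 4 * ((2 * m + 1).choose m ^ 2 * (2 * m + 1 + 1)) ≤ 4 * 4 ^ (2 * m + 1) := by
      calc 4 * ((2 * m + 1).choose m ^ 2 * (2 * m + 1 + 1))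
          ≤ (2 * (2 * m + 1).choose m) ^ 2 * (2 * (m + 1) + 1) := by
            have : (2 * (2 * m + 1).choose m) ^ 2 * (2 * (m + 1) + 1) =
              4 * ((2 * m + 1).choose m ^ 2 * (2 * m + 1 + 1)) +
                4 * (2 * m + 1).choose m ^ 2 := by ring
            rw [this]
            exact Nat.le_add_right _ _
        _ ≤ 16 ^ (m + 1) := h
        _ = 4 * 4 ^ (2 * m + 1) := by
          rw [← pow_succ', show 2 * m + 1 + 1 = 2 * (m + 1) by ring, pow_mul]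
          norm_num
    exact Nat.le_of_mul_le_mul_left h3 (by norm_num)

/-- **the bound for the binomial sum** -/
theorem t_CB : Pool.Agent.K3h78.PP.S_CB := by
  intro b n hb
  obtain ⟨β, rfl⟩ := Nat.exists_eq_add_of_le' hb
  simp only [Nat.add_sub_cancel]
  have key : (2 * ((n : ℝ) + 1)) * (∑ k ∈ range (n + 1),
      ((n.choose k : ℝ) * (β : ℝ) ^ (n - k) * (k.choose (k / 2) : ℝ))) ^ 2 ≤
        ((β : ℝ) + 2) ^ (2 * n + 1) := by
    have hcs := Finset.sum_sq_le_sum_mul_sum_of_sq_eq_mul (range (n + 1))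
      (r := fun k => (n.choose k : ℝ) * (β : ℝ) ^ (n - k) * (k.choose (k / 2) : ℝ))
      (f := fun k => (n.choose k : ℝ) * (β : ℝ) ^ (n - k) * 2 ^ k)
      (g := fun k => (n.choose k : ℝ) * (β : ℝ) ^ (n - k) * ((k.choose (k / 2) : ℝ) ^ 2 / 2 ^ k))
      (fun k _ => by positivity) (fun k _ => by positivity) (fun k _ => by
        have h2 : (2 : ℝ) ^ k ≠ 0 := by positivity
        field_simp)
    have hf : ∑ k ∈ range (n + 1), ((n.choose k : ℝ) * (β : ℝ) ^ (n - k) * 2 ^ k) =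
        ((β : ℝ) + 2) ^ n := by
      rw [add_comm (β : ℝ) 2, add_pow]
      refine sum_congr rfl fun k _ => ?_
      ring
    have hg : (2 * ((n : ℝ) + 1)) * ∑ k ∈ range (n + 1), ((n.choose k : ℝ) * (β : ℝ) ^ (n - k) *
        ((k.choose (k / 2) : ℝ) ^ 2 / 2 ^ k)) ≤ ((β : ℝ) + 2) ^ (n + 1) := by
      have h1 : ∀ k ∈ range (n + 1), (2 * ((n : ℝ) + 1)) * ((n.choose k : ℝ) * (β : ℝ) ^ (n - k) *
          ((k.choose (k / 2) : ℝ) ^ 2 / 2 ^ k)) ≤
          2 ^ (k + 1) * (β : ℝ) ^ (n + 1 - (k + 1)) * ((n + 1).choose (k + 1) : ℝ) := by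
        intro k hk
        have hm : (k.choose (k / 2) : ℝ) ^ 2 * ((k : ℝ) + 1) ≤ 4 ^ k := by
          exact_mod_cast middle_le k
        have hch : ((n : ℝ) + 1) * (n.choose k : ℝ) = ((n + 1).choose (k + 1) : ℝ) * ((k : ℝ) + 1) := by
          exact_mod_cast Nat.add_one_mul_choose_eq n k
        have hnk : n + 1 - (k + 1) = n - k := by omega
        rw [hnk]
        have h4 : (4 : ℝ) ^ k = 2 ^ k * 2 ^ k := by
          rw [← mul_pow]
          norm_num
        have h2 : (0 : ℝ) < 2 ^ k := by positivity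
        have h5 : ((k : ℝ) + 1) * ((k.choose (k / 2) : ℝ) ^ 2 / 2 ^ k) ≤ 2 ^ k := by
          rw [mul_div_assoc', div_le_iff₀ h2, ← h4]
          linarith
        calc (2 * ((n : ℝ) + 1)) * ((n.choose k : ℝ) * (β : ℝ) ^ (n - k) *
            ((k.choose (k / 2) : ℝ) ^ 2 / 2 ^ k))
            = (2 * (β : ℝ) ^ (n - k) * ((k.choose (k / 2) : ℝ) ^ 2 / 2 ^ k)) *
              (((n : ℝ) + 1) * (n.choose k : ℝ)) := by ring
          _ = (2 * (β : ℝ) ^ (n - k) * ((n + 1).choose (k + 1) : ℝ)) *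
              (((k : ℝ) + 1) * ((k.choose (k / 2) : ℝ) ^ 2 / 2 ^ k)) := by
                rw [hch]
                ring
          _ ≤ (2 * (β : ℝ) ^ (n - k) * ((n + 1).choose (k + 1) : ℝ)) * 2 ^ k :=
                mul_le_mul_of_nonneg_left h5 (by positivity)
          _ = 2 ^ (k + 1) * (β : ℝ) ^ (n - k) * ((n + 1).choose (k + 1) : ℝ) := by ring
      rw [mul_sum]
      refine le_trans (sum_le_sum h1) ?_
      rw [add_comm (β : ℝ) 2, add_pow, sum_range_succ' _ (n + 1)]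
      exact le_add_of_nonneg_right (by positivity)
    calc (2 * ((n : ℝ) + 1)) * (∑ k ∈ range (n + 1),
        ((n.choose k : ℝ) * (β : ℝ) ^ (n - k) * (k.choose (k / 2) : ℝ))) ^ 2
        ≤ (2 * ((n : ℝ) + 1)) * ((∑ k ∈ range (n + 1), ((n.choose k : ℝ) * (β : ℝ) ^ (n - k) * 2 ^ k)) *
          ∑ k ∈ range (n + 1), ((n.choose k : ℝ) * (β : ℝ) ^ (n - k) *
            ((k.choose (k / 2) : ℝ) ^ 2 / 2 ^ k))) :=
          mul_le_mul_of_nonneg_left hcs (by positivity)
      _ = ((β : ℝ) + 2) ^ n * ((2 * ((n : ℝ) + 1)) * ∑ k ∈ range (n + 1), ((n.choose k : ℝ) *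
            (β : ℝ) ^ (n - k) * ((k.choose (k / 2) : ℝ) ^ 2 / 2 ^ k))) := by
          rw [hf]
          ring
      _ ≤ ((β : ℝ) + 2) ^ n * ((β : ℝ) + 2) ^ (n + 1) :=
          mul_le_mul_of_nonneg_left hg (by positivity)
      _ = ((β : ℝ) + 2) ^ (2 * n + 1) := by ring
  exact_mod_cast key

end Pool.Agent.K3h72.PP
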